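import Pool.Agent.Helper10.TR.Defs

/-!
# TR: definitions for a ramified base `X = B \ D`
-/

set_option autoImplicit false

namespace Pool.Agent.Helper10.TR

open MvPolynomial Pool.Agent.Helper61.TH Pool.Agent.Helper87.FK Pool.Agent.Helper26.OB

noncomputable section

/-- the points of `X = B \ D` -/
def InX {m : ℕ} (B D : Set (MvPolynomial (Fin m) ℂ)) (t : Fin m → ℂ) : Prop :=
  (∀ g ∈ B, eval t g = 0) ∧ ∃ g ∈ D, eval t g ≠ 0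

/-- the critical locus is covered by closed sets which `s` moves away -/
def SFree {m : ℕ} (s : ℂ →+* ℂ) (F : Fin m → MvPolynomial (Fin m) ℂ) (B D : Set (MvPolynomial (Fin m) ℂ)) : Prop :=
  ∃ (k : ℕ) (C : Fin k → Set (MvPolynomial (Fin m) ℂ)), (∀ i, ∀ h ∈ C i, ∀ u, IsAlgebraic ℚ (coeff u h)) ∧
    (∀ t, InX B D t → (jac F t).det = 0 → ∃ i, ∀ h ∈ C i, eval t h = 0) ∧
    ∀ i t, InX B D t → ∃ j : ℕ, ∃ h ∈ C i, eval t (map (s ^ j) h) ≠ 0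

/-- Frobenius powers are all powers of `s` on `Z` -/
def FrobPlus (s : ℂ →+* ℂ) {p : ℕ} [Fact p.Prime] (τ : ℂ →+* PadicAlgCl p) (Z : Finset ℂ) : Prop :=
  ∀ l : ℕ, ∃ k : ℕ, ∀ z ∈ Z, ‖τ ((s ^ l) z)‖ ≤ 1 ∧ ‖(τ z) ^ p ^ k - τ ((s ^ l) z)‖ < 1

end

end Pool.Agent.Helper10.TR
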