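import Pool.Agent.Helper10.TR.RedImp
import Pool.Agent.Helper10.TR.Defs2
import Pool.Agent.Helper98.OS.JB

/-!
# TR, block I: the residues of the orbit stay in `X`
-/

set_option autoImplicit false

namespace Pool.Agent.Helper10.TR

open MvPolynomial Pool.Agent.Helper61.TH Pool.Agent.Helper87.FK Pool.Agent.Helper26.OB
open Pool.Agent.Helper26.OS (exists_map98 norm_eval_le98)

noncomputable section

theorem coeff_bind_mem (A : Subfield ℂ) {m : ℕ} (F : Fin m → MvPolynomial (Fin m) ℂ) (hF : ∀ i u, coeff u (F i) ∈ A)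
    (g : MvPolynomial (Fin m) ℂ) (hg : ∀ u, coeff u g ∈ A) (u : Fin m →₀ ℕ) : coeff u (bind₁ F g) ∈ A := by
  choose F' hF' using fun i => exists_map98 A (F i) (hF i)
  obtain ⟨g', hg'⟩ := exists_map98 A g hg
  have h1 : F = fun i => map A.subtype (F' i) := funext fun i => (hF' i).symm
  rw [h1, ← hg', ← map_bind₁, coeff_map]
  exact (coeff u (bind₁ F' g')).2

theorem inv_unit (A : Subfield ℂ) (hA : ∀ z : ℂ, IsAlgebraic A z → z ∈ A) {m : ℕ}
    (B : Set (MvPolynomial (Fin m) ℂ)) (hB : ∀ g ∈ B, ∀ u, coeff u g ∈ A) (D : Finset (MvPolynomial (Fin m) ℂ))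
    (hD : ∀ g ∈ D, ∀ u, coeff u g ∈ A) (F : Fin m → MvPolynomial (Fin m) ℂ) (hF : ∀ i u, coeff u (F i) ∈ A)
    (hFX : ∀ t, InX B ↑D t → InX B ↑D (ev F t)) : ∃ Z : Finset ℂ, (∀ z ∈ Z, z ∈ A) ∧
      ∀ (p : ℕ) [Fact p.Prime] (τ : ℂ →+* PadicAlgCl p), Un τ Z → ∀ t : Fin m → ℂ, (∀ g ∈ B, eval t g = 0) →
        (∀ i, ‖τ (t i)‖ ≤ 1) → (∃ g ∈ D, ‖τ (eval t g)‖ = 1) → ∃ g ∈ D, ‖τ (eval (ev F t) g)‖ = 1 := by
  classical
  set S : Set (MvPolynomial (Fin m) ℂ) := B ∪ (fun g => bind₁ F g) '' (D : Set (MvPolynomial (Fin m) ℂ)) with hSdef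
  have hS : ∀ q ∈ S, ∀ u, coeff u q ∈ A := by
    rintro q (hq | ⟨g, hg, rfl⟩)
    · exact hB q hq
    · exact coeff_bind_mem A F hF g (hD g hg)
  have key : ∀ g ∈ D, ∃ (Q : Finset (MvPolynomial (Fin m) ℂ)) (Z : Finset ℂ), (∀ q ∈ Q, q ∈ S) ∧ (∀ z ∈ Z, z ∈ A) ∧
      ∀ (p : ℕ) [Fact p.Prime] (τ : ℂ →+* PadicAlgCl p), Un τ Z → ∀ y : Fin m → ℂ, (∀ v, ‖τ (y v)‖ ≤ 1) →
        (∀ q ∈ Q, ‖τ (eval y q)‖ < 1) → ‖τ (eval y g)‖ < 1 := by
    intro g hg
    refine red_imp A hA S hS g (hD g hg) fun y hy => ?_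
    by_contra h
    have h1 : InX B ↑D y := ⟨fun b hb => hy b (Or.inl hb), g, hg, h⟩
    obtain ⟨-, g', hg', h2⟩ := hFX y h1
    apply h2
    have h3 := hy (bind₁ F g') (Or.inr ⟨g', hg', rfl⟩)
    rwa [eval_bind] at h3
  choose Q Z hQ hZ hred using key
  let Zc : Finset ℂ := (D.biUnion fun g => g.support.image fun u => coeff u g) ∪
    (Finset.univ.biUnion fun i => (F i).support.image fun u => coeff u (F i))
  let ZZ : Finset ℂ := (D.attach.biUnion fun g => Z g.1 g.2) ∪ Zc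
  refine ⟨ZZ, ?_, ?_⟩
  · intro z hz
    rcases Finset.mem_union.1 hz with hz | hz
    · obtain ⟨g, -, hz⟩ := Finset.mem_biUnion.1 hz
      exact hZ g.1 g.2 z hz
    · rcases Finset.mem_union.1 hz with hz | hz
      · obtain ⟨g, hg, hz⟩ := Finset.mem_biUnion.1 hz
        obtain ⟨u, -, rfl⟩ := Finset.mem_image.1 hz
        exact hD g hg u
      · obtain ⟨i, -, hz⟩ := Finset.mem_biUnion.1 hz
        obtain ⟨u, -, rfl⟩ := Finset.mem_image.1 hz
        exact hF i u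
  · intro p _ τ hUn t htB hti hg
    obtain ⟨g, hg, hg1⟩ := hg
    by_contra hcon
    push Not at hcon
    have hint : ∀ P : MvPolynomial (Fin m) ℂ, (∀ u ∈ P.support, coeff u P ∈ ZZ) → ∀ u, ‖τ (coeff u P)‖ ≤ 1 := by
      intro P hP u
      by_cases h : u ∈ P.support
      · exact (hUn _ (hP u h)).1
      · rw [notMem_support_iff.1 h, map_zero, norm_zero]
        exact zero_le_one
    have hFi : ∀ i u, ‖τ (coeff u (F i))‖ ≤ 1 := fun i => hint _ fun u hu => Finset.mem_union_right _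
      (Finset.mem_union_right _ (Finset.mem_biUnion.2 ⟨i, Finset.mem_univ _, Finset.mem_image.2 ⟨u, hu, rfl⟩⟩))
    have hDi : ∀ g ∈ D, ∀ u, ‖τ (coeff u g)‖ ≤ 1 := fun g hg => hint _ fun u hu => Finset.mem_union_right _
      (Finset.mem_union_left _ (Finset.mem_biUnion.2 ⟨g, hg, Finset.mem_image.2 ⟨u, hu, rfl⟩⟩))
    have hFt : ∀ i, ‖τ (ev F t i)‖ ≤ 1 := fun i => norm_eval_le98 τ (F i) (hFi i) t hti
    have h1 := hred g hg p τ (fun z hz => hUn z (Finset.mem_union_left _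
      (Finset.mem_biUnion.2 ⟨⟨g, hg⟩, Finset.mem_attach _ _, hz⟩))) t hti (by
        intro q hq
        rcases hQ g hg q hq with hq | ⟨g', hg', rfl⟩
        · rw [htB q hq, map_zero, norm_zero]
          exact one_pos
        · rw [eval_bind]
          exact lt_of_le_of_ne (norm_eval_le98 τ g' (hDi g' hg') _ hFt) (hcon g' hg'))
    rw [hg1] at h1
    exact lt_irrefl _ h1

end

end Pool.Agent.Helper10.TR
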