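import Pool.Agent.Helper10.TR.Defs
import Pool.Agent.Helper26.OB.Res

/-!
# TR, block N: reduction of an implication
-/

set_option autoImplicit false

namespace Pool.Agent.Helper10.TR

open MvPolynomial Pool.Agent.Helper61.TH Pool.Agent.Helper87.FK Pool.Agent.Helper26.OB

noncomputable section

/-- Nullstellensatz over the subfield `A` -/
theorem nsRad (A : Subfield ℂ) {ι : Type} [Finite ι]
    (S : Set (MvPolynomial ι ℂ)) (hS : ∀ q ∈ S, ∀ u, coeff u q ∈ A) (g : MvPolynomial ι ℂ) (hg : ∀ u, coeff u g ∈ A)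
    (h0 : ∀ y : ι → ℂ, (∀ q ∈ S, eval y q = 0) → eval y g = 0) :
    ∃ (e : ℕ) (Q : Finset (MvPolynomial ι ℂ)) (U : MvPolynomial ι ℂ → MvPolynomial ι ℂ), (∀ q ∈ Q, q ∈ S) ∧
      (∀ q s, coeff s (U q) ∈ A) ∧ ∑ q ∈ Q, U q * q = g ^ e := by
  classical
  set f : A →+* ℂ := A.subtype with hf
  have hfi : Function.Injective f := A.subtype.injective
  have hmi : Function.Injective (map f : MvPolynomial ι A →+* MvPolynomial ι ℂ) := map_injective f hfi
  set T : Set (MvPolynomial ι A) := {g | map f g ∈ S} with hT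
  have hlift : ∀ g : MvPolynomial ι ℂ, (∀ u, coeff u g ∈ A) → ∃ g' : MvPolynomial ι A, map f g' = g := by
    intro g hg
    have : g ∈ Set.range (map f : MvPolynomial ι A →+* MvPolynomial ι ℂ) := by
      rw [mem_range_map_iff_coeffs_subset]
      intro c hc
      rw [Finset.mem_coe, mem_coeffs_iff] at hc
      obtain ⟨s, _, rfl⟩ := hc
      exact ⟨⟨coeff s g, hg s⟩, rfl⟩
    exact this
  obtain ⟨g', hg'⟩ := hlift g hg
  have hrad : g' ∈ (Ideal.span T).radical := by
    rw [← vanishingIdeal_zeroLocus_eq_radical (K := ℂ), mem_vanishingIdeal_iff]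
    intro x hx
    have h1 : eval x g = 0 := by
      refine h0 x fun q hq => ?_
      obtain ⟨q', rfl⟩ := hlift q (hS q hq)
      have := (mem_zeroLocus_iff.1 hx) q' (Ideal.subset_span hq)
      rw [eval_map]
      exact this
    rw [← hg', eval_map] at h1
    exact h1
  obtain ⟨e, he⟩ := hrad
  have h1 : g' ^ e ∈ Submodule.span (MvPolynomial ι A) T := he
  rw [Submodule.mem_span_set] at h1
  obtain ⟨c, hc, hsum⟩ := h1
  refine ⟨e, c.support.image (map f), fun g => if h : ∃ g' : MvPolynomial ι A, map f g' = g then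
    map f (c h.choose) else 0, ?_, ?_, ?_⟩
  · intro g hg
    obtain ⟨g', hg', rfl⟩ := Finset.mem_image.1 hg
    exact hc hg'
  · intro g s
    by_cases h : ∃ g' : MvPolynomial ι A, map f g' = g
    · simp only [h, dite_true, coeff_map]
      exact (coeff s (c h.choose)).2
    · simp only [h, dite_false, coeff_zero]
      exact A.zero_mem
  · rw [Finset.sum_image (fun a _ b _ h => hmi h)]
    have : ∀ g' ∈ c.support, (if h : ∃ g'' : MvPolynomial ι A, map f g'' = map f g' then
        map f (c h.choose) else 0) * map f g' = map f (c g' * g') := by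
      intro g' _
      have h : ∃ g'' : MvPolynomial ι A, map f g'' = map f g' := ⟨g', rfl⟩
      rw [dif_pos h, hmi h.choose_spec, map_mul]
    rw [Finset.sum_congr rfl this, ← map_sum]
    have h2 : ∑ g' ∈ c.support, c g' * g' = g' ^ e := by
      have := hsum
      rw [Finsupp.sum] at this
      simpa [smul_eq_mul] using this
    rw [h2, map_pow, hg']

/-- **TR-N**: reduction of an implication between polynomials -/
theorem red_imp (A : Subfield ℂ) (hA : ∀ z : ℂ, IsAlgebraic A z → z ∈ A) {ι : Type} [Finite ι]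
    (S : Set (MvPolynomial ι ℂ)) (hS : ∀ q ∈ S, ∀ u, coeff u q ∈ A) (g : MvPolynomial ι ℂ) (hg : ∀ u, coeff u g ∈ A)
    (h0 : ∀ y : ι → ℂ, (∀ q ∈ S, eval y q = 0) → eval y g = 0) :
    ∃ (Q : Finset (MvPolynomial ι ℂ)) (Z : Finset ℂ), (∀ q ∈ Q, q ∈ S) ∧ (∀ z ∈ Z, z ∈ A) ∧
      ∀ (p : ℕ) [Fact p.Prime] (τ : ℂ →+* PadicAlgCl p), Un τ Z → ∀ y : ι → ℂ, (∀ v, ‖τ (y v)‖ ≤ 1) →
        (∀ q ∈ Q, ‖τ (eval y q)‖ < 1) → ‖τ (eval y g)‖ < 1 := by
  classical
  have _ := hA
  obtain ⟨e, Q, U, hQ, hU, hsum⟩ := nsRad A S hS g hg h0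
  refine ⟨Q, Q.biUnion fun q => (U q).support.image fun s => coeff s (U q), hQ, ?_, ?_⟩
  · intro z hz
    obtain ⟨q, -, hz⟩ := Finset.mem_biUnion.1 hz
    obtain ⟨s, -, rfl⟩ := Finset.mem_image.1 hz
    exact hU q s
  · intro p _ τ hUn y hy hq
    have hUint : ∀ q ∈ Q, ‖τ (eval y (U q))‖ ≤ 1 := by
      intro q hqQ
      rw [← mem_Oc, eval_eq, map_sum]
      refine sum_mem fun s hs => ?_
      rw [map_mul, map_prod]
      refine mul_mem (mem_Oc.2 ?_) (prod_mem fun i _ => ?_)
      · exact (hUn _ (Finset.mem_biUnion.2 ⟨q, hqQ, Finset.mem_image.2 ⟨s, hs, rfl⟩⟩)).1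
      · rw [map_pow]
        exact pow_mem (mem_Oc.2 (hy i)) _
    have h1 : ‖τ (eval y g)‖ ^ e < 1 := by
      rw [← norm_pow, ← map_pow, ← map_pow, ← hsum, map_sum, map_sum]
      have h2 : ∀ s : Finset (MvPolynomial ι ℂ), s ⊆ Q → ‖∑ q ∈ s, τ (eval y (U q * q))‖ < 1 := by
        intro s
        induction s using Finset.induction_on with
        | empty => intro _; simp
        | insert a s ha ih =>
          intro hs
          rw [Finset.sum_insert ha]
          refine lt_of_le_of_lt (PadicAlgCl.isNonarchimedean p _ _) (max_lt ?_ (ih ((Finset.subset_insert _ _).trans hs)))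
          have haQ := hs (Finset.mem_insert_self a s)
          rw [map_mul, map_mul, norm_mul]
          calc ‖τ (eval y (U a))‖ * ‖τ (eval y a)‖ ≤ 1 * ‖τ (eval y a)‖ :=
                mul_le_mul_of_nonneg_right (hUint a haQ) (norm_nonneg _)
            _ < 1 := by rw [one_mul]; exact hq a haQ
      exact h2 Q (Finset.Subset.refl _)
    by_contra h2
    exact absurd h1 (not_lt.2 (one_le_pow₀ (not_lt.1 h2)))

end

end Pool.Agent.Helper10.TR
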