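import Pool.Agent.Helper10.TR.Defs
import Pool.Agent.Helper26.OB.Res

/-!
# TR, block E: residues
-/

set_option autoImplicit false

namespace Pool.Agent.Helper10.TR

open MvPolynomial Pool.Agent.Helper61.TH Pool.Agent.Helper87.FK Pool.Agent.Helper26.OB

noncomputable section

theorem coeff_rp {ι : Type} {p : ℕ} [Fact p.Prime] (τ : ℂ →+* PadicAlgCl p) (P : MvPolynomial ι ℂ) (s : ι →₀ ℕ) :
    coeff s (rp τ P) = rd τ (coeff s P) := by
  classical
  unfold rp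
  rw [coeff_sum]
  simp only [coeff_monomial]
  rw [Finset.sum_ite_eq']
  split_ifs with h
  · rfl
  · rw [mem_support_iff, not_not] at h
    rw [h, rd_zero]

/-- integral lift -/
theorem exists_lift {ι : Type} {p : ℕ} [Fact p.Prime] (τ : ℂ →+* PadicAlgCl p) (P : MvPolynomial ι ℂ)
    (hP : ∀ s, ‖τ (coeff s P)‖ ≤ 1) : ∃ P' : MvPolynomial ι (Ot τ), map (Ot τ).subtype P' = P ∧ map (rh τ) P' = rp τ P := by
  have h3 : P ∈ Set.range (map (Ot τ).subtype) := by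
    rw [mem_range_map_iff_coeffs_subset]
    intro x hx
    rw [coeffs, Finset.coe_image] at hx
    obtain ⟨s, -, rfl⟩ := hx
    exact ⟨⟨_, (mem_Ot τ).2 (hP s)⟩, rfl⟩
  obtain ⟨P', hP'⟩ := h3
  refine ⟨P', hP', ?_⟩
  ext s
  rw [coeff_map, coeff_rp, ← rd_coe, ← hP', coeff_map]
  rfl

theorem rd_eval {ι : Type} {p : ℕ} [Fact p.Prime] (τ : ℂ →+* PadicAlgCl p) (P : MvPolynomial ι ℂ)
    (hP : ∀ s, ‖τ (coeff s P)‖ ≤ 1) (y : ι → ℂ) (hy : ∀ v, ‖τ (y v)‖ ≤ 1) :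
    ‖τ (eval y P)‖ ≤ 1 ∧ rd τ (eval y P) = eval (fun v => rd τ (y v)) (rp τ P) := by
  obtain ⟨P', h1, h2⟩ := exists_lift τ P hP
  let y' : ι → Ot τ := fun v => ⟨y v, (mem_Ot τ).2 (hy v)⟩
  have h3 : eval y P = ((eval y' P' : Ot τ) : ℂ) := by
    rw [← h1, eval_map]
    exact (eval₂_comp_left (Ot τ).subtype (RingHom.id _) y' P').symm
  have h4 : eval (fun v => rd τ (y v)) (rp τ P) = rh τ (eval y' P') := by
    rw [← h2, eval_map]
    have h5 : (fun v => rd τ (y v)) = fun v => rh τ (y' v) := by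
      funext v
      exact rd_coe τ (y' v)
    rw [h5]
    exact (eval₂_comp_left (rh τ) (RingHom.id _) y' P').symm
  refine ⟨?_, ?_⟩
  · rw [h3]
    exact (mem_Ot τ).1 (eval y' P').2
  · rw [h4, h3, rd_coe]

theorem rd_pderiv {ι : Type} [DecidableEq ι] {p : ℕ} [Fact p.Prime] (τ : ℂ →+* PadicAlgCl p) (P : MvPolynomial ι ℂ)
    (hP : ∀ s, ‖τ (coeff s P)‖ ≤ 1) (v : ι) :
    (∀ s, ‖τ (coeff s (pderiv v P))‖ ≤ 1) ∧ rp τ (pderiv v P) = pderiv v (rp τ P) := by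
  obtain ⟨P', h1, h2⟩ := exists_lift τ P hP
  have h3 : pderiv v P = map (Ot τ).subtype (pderiv v P') := by rw [← h1, pderiv_map]
  refine ⟨fun s => ?_, ?_⟩
  · rw [h3, coeff_map]
    exact (mem_Ot τ).1 (coeff s (pderiv v P')).2
  · ext s
    rw [coeff_rp, h3, coeff_map, ← h2, pderiv_map, coeff_map]
    exact rd_coe τ _

theorem fib_map {ι : Type} [DecidableEq ι] {R S : Type} [CommRing R] [CommRing S] (f : R →+* S) (v : ι) (y : ι → R)
    (P : MvPolynomial ι R) : fib v (fun w => f (y w)) (map f P) = (fib v y P).map f := by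
  unfold fib
  rw [eval₂_map, ← Polynomial.coe_mapRingHom, hom_eval₂]
  congr 1
  · ext a
    simp
  · funext w
    by_cases h : w = v
    · simp [h]
    · simp [h]

theorem rd_fib {ι : Type} [DecidableEq ι] {p : ℕ} [Fact p.Prime] (τ : ℂ →+* PadicAlgCl p) (P : MvPolynomial ι ℂ)
    (hP : ∀ s, ‖τ (coeff s P)‖ ≤ 1) (y : ι → ℂ) (hy : ∀ v, ‖τ (y v)‖ ≤ 1) (v : ι) (j : ℕ) :
    ‖τ ((fib v y P).coeff j)‖ ≤ 1 ∧ rd τ ((fib v y P).coeff j) = (fib v (fun v => rd τ (y v)) (rp τ P)).coeff j := by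
  obtain ⟨P', h1, h2⟩ := exists_lift τ P hP
  let y' : ι → Ot τ := fun v => ⟨y v, (mem_Ot τ).2 (hy v)⟩
  have h3 : fib v y P = (fib v y' P').map (Ot τ).subtype := by
    rw [← h1]
    exact fib_map (Ot τ).subtype v y' P'
  have h4 : fib v (fun v => rd τ (y v)) (rp τ P) = (fib v y' P').map (rh τ) := by
    rw [← h2]
    have h5 : (fun v => rd τ (y v)) = fun v => rh τ (y' v) := by
      funext v
      exact rd_coe τ (y' v)
    rw [h5]
    exact fib_map (rh τ) v y' P'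
  rw [h3, h4, Polynomial.coeff_map, Polynomial.coeff_map]
  exact ⟨(mem_Ot τ).1 ((fib v y' P').coeff j).2, rd_coe τ _⟩

end

end Pool.Agent.Helper10.TR
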