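import Pool.Agent.Helper10.TR.Fin3
import Pool.Agent.Helper10.TR.Inv
import Pool.Agent.Helper53.TR.FP
import Pool.Agent.Helper98.TR.BD
import Pool.Agent.Helper11.TR.RU

/-!
# TR: the theorem over a ramified base, without hypotheses
-/

set_option autoImplicit false

namespace Pool.Agent.Helper10.TR

open MvPolynomial Pool.Agent.Helper61.TH Pool.Agent.Helper87.FK Pool.Agent.Helper26.OB
open Pool.Agent.Helper26.OS (evI jacI)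

noncomputable section

theorem fin4
    {m n : ℕ} (K : Subfield ℂ) (hK : NumberField K) (B D : Set (MvPolynomial (Fin m) ℂ))
    (hB : ∀ g ∈ B, ∀ s, coeff s g ∈ K) (hD : ∀ g ∈ D, ∀ s, coeff s g ∈ K)
    (F : Fin m → MvPolynomial (Fin m) ℂ) (hF : ∀ i s, coeff s (F i) ∈ K)
    (hFX : ∀ t, ((∀ g ∈ B, eval t g = 0) ∧ ∃ g ∈ D, eval t g ≠ 0) →
      ((∀ g ∈ B, eval (fun i => eval t (F i)) g = 0) ∧ ∃ g ∈ D, eval (fun i => eval t (F i)) g ≠ 0))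
    (P : Fin n → MvPolynomial (Fin m ⊕ Fin n) ℂ) (hP : ∀ r s, coeff s (P r) ∈ K)
    (htri : ∀ r, ∀ s ∈ (P r).support, ∀ j, r < j → s (Sum.inr j) = 0)
    (e : Fin n → ℕ) (he : ∀ r, 1 ≤ e r)
    (hdeg : ∀ y : Fin m ⊕ Fin n → ℂ, ((∀ g ∈ B, eval (fun i => y (Sum.inl i)) g = 0) ∧
      ∃ g ∈ D, eval (fun i => y (Sum.inl i)) g ≠ 0) → ∀ r, (fib (Sum.inr r) y (P r)).natDegree = e r)
    (t : Fin m → ℂ) (ht : ∀ i, t i ∈ K) (htX : (∀ g ∈ B, eval t g = 0) ∧ ∃ g ∈ D, eval t g ≠ 0) (x : Fin n → ℂ)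
    (hx : ((∀ r, IsAlgebraic K (x r)) ∧ ∃ σ : ℂ ≃+* ℂ, (∀ z ∈ K, σ z = z) ∧
        (∃ (k : ℕ) (C : Fin k → Set (MvPolynomial (Fin m) ℂ)), (∀ i, ∀ h ∈ C i, ∀ u, IsAlgebraic ℚ (coeff u h)) ∧
          (∀ t, ((∀ g ∈ B, eval t g = 0) ∧ ∃ g ∈ D, eval t g ≠ 0) →
            (Matrix.of fun i j => eval t (pderiv j (F i))).det = 0 → ∃ i, ∀ h ∈ C i, eval t h = 0) ∧
          ∀ i t, ((∀ g ∈ B, eval t g = 0) ∧ ∃ g ∈ D, eval t g ≠ 0) →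
            ∃ j : ℕ, ∃ h ∈ C i, eval t (map ((σ : ℂ →+* ℂ) ^ j) h) ≠ 0) ∧
        ∀ r : Fin n, 2 ≤ e r → ∃ l : ℕ, l.Prime ∧ e r < l ∧ l ∣ ln σ x (r + 1) / ln σ x r) ∨
      ((∀ t, ((∀ g ∈ B, eval t g = 0) ∧ ∃ g ∈ D, eval t g ≠ 0) →
          (Matrix.of fun i j => eval t (pderiv j (F i))).det ≠ 0) ∧
        ∃ l : Fin n → ℕ, Function.Injective l ∧ ∀ r, (e r = 1 ∧ x r ∈ K) ∨ ((l r).Prime ∧ e r < l r ∧
        x r ∉ K ∧ ∃ L : IntermediateField K ℂ, IsGalois K L ∧ Module.finrank K L = l r ∧ x r ∈ L)))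
    (V : Set (MvPolynomial (Fin m ⊕ Fin n) ℂ)) :
    ∃ S : Finset (ℕ × ℕ), {k : ℕ | ∀ g ∈ V, eval ((fun y : Fin m ⊕ Fin n → ℂ =>
        Sum.elim (fun i => eval (fun j => y (Sum.inl j)) (F i)) fun r => eval y (P r))^[k] (Sum.elim t x)) g = 0} =
      {k | ∃ q ∈ S, ∃ j, k = q.1 + q.2 * j} :=
  fin3_of (fun K hK B D hB hD F hF hFX P hP ht e he hdeg t ht' htX x hx σ hσ hs hc V =>
    tri3_of (fun σ Z hZ N₀ => Pool.Agent.Helper53.TR.frob_plus σ Z hZ N₀)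
      (fun A hA => inv_unit A hA)
      (fun A hA s => Pool.Agent.Helper11.TR.ram_unit A hA s)
      (fun A hA => lead_unitD A hA)
      K hK B D hB hD F hF hFX P hP ht e he hdeg t ht' htX x hx σ hσ hs hc V)
    K hK B D hB hD F hF hFX P hP htri e he hdeg t ht htX x hx V

end

end Pool.Agent.Helper10.TR
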