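import Pool.Agent.Helper10.TR.Orb
import Pool.Agent.Helper26.OB.M
import Pool.Agent.Helper26.OB.MC
import Pool.Agent.Helper26.OS.Eng
import Pool.Agent.Helper98.OS.JB
import Pool.Agent.Helper53.OB.Frob

/-!
# TR: the theorem from the blocks
-/

set_option autoImplicit false

namespace Pool.Agent.Helper10.TR

open MvPolynomial Pool.Agent.Helper61.TH Pool.Agent.Helper87.FK Pool.Agent.Helper26.OB
open Pool.Agent.Helper26.OS (evI jacI sysI run engI jacB)
open Pool.Agent.Helper10.OS (below)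

noncomputable section

theorem run_one {ι : Type} {R : Type} [Fintype ι] [DecidableEq ι] [CommRing R] (G : ι → MvPolynomial ι R) (u : List (Fin 1)) (y : ι → R) :
    run (fun _ => G) u y = (evI G)^[u.length] y := by
  induction u with
  | nil => rfl
  | cons a u ih =>
    rw [run, ih, List.length_cons, Function.iterate_succ_apply']

theorem sys_one {ι : Type} {R : Type} [Fintype ι] [DecidableEq ι] [CommRing R] (G : ι → MvPolynomial ι R) (y : ι → R) (k : ℕ) :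
    (sysI (fun _ => G) (id : Fin 1 → Fin 1))^[k] (fun _ => y) = fun _ => (evI G)^[k] y := by
  induction k with
  | zero => rfl
  | succ k ih =>
    rw [Function.iterate_succ_apply', ih, Function.iterate_succ_apply']
    rfl

/-- the engine for one map -/
theorem eng_one {ι : Type} [Fintype ι] [DecidableEq ι] (G : ι → MvPolynomial ι ℂ) (p : ℕ)
    [Fact p.Prime] (hp3 : 3 ≤ p) (τ : ℂ →+* PadicAlgCl p) (hG : ∀ i s, ‖τ (coeff s (G i))‖ ≤ 1)
    (y : ι → ℂ) (hy : ∀ i, ‖τ (y i)‖ ≤ 1) (H : ∀ k, ‖τ (jacI G ((evI G)^[k] y)).det‖ = 1)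
    (V : Set (MvPolynomial ι ℂ)) : ∃ S : Finset (ℕ × ℕ),
      {k : ℕ | ∀ g ∈ V, eval ((evI G)^[k] y) g = 0} = {k | ∃ q ∈ S, ∃ j, k = q.1 + q.2 * j} := by
  obtain ⟨S, hS⟩ := engI (fun _ : Fin 1 => G) p hp3 τ (fun _ i s => hG i s) id (fun _ => y) (fun _ i => hy i)
    (fun b u _ a _ => by
      rw [run_one]
      exact H _) ((fun g => rename (fun i => ((0 : Fin 1), i)) g) '' V)
  refine ⟨S, ?_⟩
  rw [← hS]
  ext k
  simp only [Set.mem_ofPred_eq, Set.forall_mem_image]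
  refine forall₂_congr fun g _ => ?_
  rw [sys_one, eval_rename]
  rfl

/-- the orbit stays integral -/
theorem orb_int {ι : Type} {p : ℕ} [Fact p.Prime] (τ : ℂ →+* PadicAlgCl p) (G : ι → MvPolynomial ι ℂ) [Fintype ι] [DecidableEq ι]
    (hG : ∀ i s, ‖τ (coeff s (G i))‖ ≤ 1) (y : ι → ℂ) (hy : ∀ i, ‖τ (y i)‖ ≤ 1) (k : ℕ) :
    ∀ i, ‖τ ((evI G)^[k] y i)‖ ≤ 1 := by
  induction k with
  | zero => exact hy
  | succ k ih =>
    intro i
    rw [Function.iterate_succ_apply']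
    exact Pool.Agent.Helper26.OS.norm_eval_le98 τ (G i) (hG i) _ ih

/-- the first components -/
theorem orb_base {m n : ℕ} {R : Type} [CommRing R] (F : Fin m → MvPolynomial (Fin m) R)
    (P : Fin n → MvPolynomial (Fin m ⊕ Fin n) R) (y : Fin m ⊕ Fin n → R) (k : ℕ) :
    (fun i => (evI (GG F P))^[k] y (Sum.inl i)) = (ev F)^[k] fun i => y (Sum.inl i) := by
  induction k with
  | zero => rfl
  | succ k ih =>
    rw [Function.iterate_succ_apply', Function.iterate_succ_apply', ← ih]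
    funext i
    change eval _ (rename Sum.inl (F i)) = eval _ (F i)
    rw [eval_rename]
    rfl

theorem tri_of
    (lead_unit : ∀ (A : Subfield ℂ), (∀ z : ℂ, IsAlgebraic A z → z ∈ A) → ∀ {m n : ℕ} (B : Set (MvPolynomial (Fin m) ℂ)),
      (∀ g ∈ B, ∀ s, coeff s g ∈ A) → ∀ (P : Fin n → MvPolynomial (Fin m ⊕ Fin n) ℂ), (∀ r s, coeff s (P r) ∈ A) →
      ∀ (e : Fin n → ℕ), (∀ r, 1 ≤ e r) →
      (∀ y : Fin m ⊕ Fin n → ℂ, (∀ g ∈ B, eval (fun i => y (Sum.inl i)) g = 0) → ∀ r,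
        (fib (Sum.inr r) y (P r)).natDegree = e r) → ∃ Z : Finset ℂ, (∀ z ∈ Z, z ∈ A) ∧
        ∀ (p : ℕ) [Fact p.Prime] (τ : ℂ →+* PadicAlgCl p), Un τ Z → ∀ y : Fin m ⊕ Fin n → ℂ,
          (∀ g ∈ B, eval (fun i => y (Sum.inl i)) g = 0) → (∀ v, ‖τ (y v)‖ ≤ 1) → ∀ r,
            ‖τ ((fib (Sum.inr r) y (P r)).coeff (e r))‖ = 1)
    (det_tri : ∀ {m n : ℕ} {R : Type} [CommRing R] (F : Fin m → MvPolynomial (Fin m) R)
      (P : Fin n → MvPolynomial (Fin m ⊕ Fin n) R), Tri P → ∀ (y : Fin m ⊕ Fin n → R),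
      (jacI (GG F P) y).det = (jac F fun i => y (Sum.inl i)).det * ∏ r, eval y (pderiv (Sum.inr r) (P r)))
    (ln_dvd : ∀ {X Y : Type} {n : ℕ} (f : X → X) (x : Fin n → X), (∀ j, ∃ k, 1 ≤ k ∧ f^[k] (x j) = x j) → ∀ (g : Y → Y)
      (y : Fin n → Y), (∀ j k, g^[k] (y j) = y j ↔ f^[k] (x j) = x j) → ∀ (r : Fin n) (l : ℕ),
      l ∣ ln f x (r + 1) / ln f x r →
      (∀ j, j < r → g^[ln f x r] (y j) = y j) ∧ l ∣ Function.minimalPeriod (g^[ln f x r]) (y r))
    (coeff_rp : ∀ {ι : Type} {p : ℕ} [Fact p.Prime] (τ : ℂ →+* PadicAlgCl p) (P : MvPolynomial ι ℂ) (s : ι →₀ ℕ),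
      coeff s (rp τ P) = rd τ (coeff s P))
    (rd_eval : ∀ {ι : Type} {p : ℕ} [Fact p.Prime] (τ : ℂ →+* PadicAlgCl p) (P : MvPolynomial ι ℂ),
      (∀ s, ‖τ (coeff s P)‖ ≤ 1) → ∀ (y : ι → ℂ), (∀ v, ‖τ (y v)‖ ≤ 1) →
      ‖τ (eval y P)‖ ≤ 1 ∧ rd τ (eval y P) = eval (fun v => rd τ (y v)) (rp τ P))
    (rd_pderiv : ∀ {ι : Type} [DecidableEq ι] {p : ℕ} [Fact p.Prime] (τ : ℂ →+* PadicAlgCl p) (P : MvPolynomial ι ℂ),
      (∀ s, ‖τ (coeff s P)‖ ≤ 1) → ∀ (v : ι),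
      (∀ s, ‖τ (coeff s (pderiv v P))‖ ≤ 1) ∧ rp τ (pderiv v P) = pderiv v (rp τ P))
    (rd_fib : ∀ {ι : Type} [DecidableEq ι] {p : ℕ} [Fact p.Prime] (τ : ℂ →+* PadicAlgCl p) (P : MvPolynomial ι ℂ),
      (∀ s, ‖τ (coeff s P)‖ ≤ 1) → ∀ (y : ι → ℂ), (∀ v, ‖τ (y v)‖ ≤ 1) → ∀ (v : ι) (j : ℕ),
      ‖τ ((fib v y P).coeff j)‖ ≤ 1 ∧ rd τ ((fib v y P).coeff j) = (fib v (fun v => rd τ (y v)) (rp τ P)).coeff j)
    {m n : ℕ} (K : Subfield ℂ) (hK : NumberField K) (B : Set (MvPolynomial (Fin m) ℂ)) (hB : ∀ g ∈ B, ∀ s, coeff s g ∈ K)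
    (F : Fin m → MvPolynomial (Fin m) ℂ) (hF : ∀ i s, coeff s (F i) ∈ K)
    (hFB : ∀ t, (∀ g ∈ B, eval t g = 0) → ∀ g ∈ B, eval (ev F t) g = 0)
    (het : ∀ t, (∀ g ∈ B, eval t g = 0) → (jac F t).det ≠ 0)
    (P : Fin n → MvPolynomial (Fin m ⊕ Fin n) ℂ) (hP : ∀ r s, coeff s (P r) ∈ K) (htri : Tri P)
    (e : Fin n → ℕ) (he : ∀ r, 1 ≤ e r)
    (hdeg : ∀ y : Fin m ⊕ Fin n → ℂ, (∀ g ∈ B, eval (fun i => y (Sum.inl i)) g = 0) → ∀ r,
        (fib (Sum.inr r) y (P r)).natDegree = e r)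
    (t : Fin m → ℂ) (ht : ∀ i, t i ∈ K) (htB : ∀ g ∈ B, eval t g = 0)
    (x : Fin n → ℂ) (hx : ∀ i, IsAlgebraic K (x i))
    (σ : ℂ ≃+* ℂ) (hσ : ∀ z ∈ K, σ z = z)
    (hc : ∀ r : Fin n, 2 ≤ e r → ∃ l : ℕ, l.Prime ∧ e r < l ∧ l ∣ ln σ x (r + 1) / ln σ x r)
    (V : Set (MvPolynomial (Fin m ⊕ Fin n) ℂ)) :
    ∃ S : Finset (ℕ × ℕ), {k | ∀ g ∈ V, eval ((evI (GG F P))^[k] (Sum.elim t x)) g = 0} =
      {k | ∃ q ∈ S, ∃ j, k = q.1 + q.2 * j} := by
  classical
  have hKalg : ∀ z ∈ K, IsAlgebraic ℚ z := fun z hz => by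
    have h1 : IsAlgebraic ℚ (⟨z, hz⟩ : K) := Algebra.IsAlgebraic.isAlgebraic _
    exact (isAlgebraic_algebraMap_iff (S := K) (A := ℂ) Subtype.val_injective).2 h1
  let A₀ : IntermediateField ℚ ℂ := algebraicClosure ℚ ℂ
  let A : Subfield ℂ := A₀.toSubfield
  have hAm : ∀ z, z ∈ A ↔ IsAlgebraic ℚ z := fun z => mem_algebraicClosure_iff
  have hA : ∀ z : ℂ, IsAlgebraic A z → z ∈ A := by
    intro z hz
    have hz' : IsAlgebraic A₀ z := hz
    have hB : Algebra.IsAlgebraic ℚ A₀ := algebraicClosure.isAlgebraic ℚ ℂ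
    rw [hAm]
    exact (isIntegral_trans (R := ℚ) (A := A₀) z (isAlgebraic_iff_isIntegral.1 hz')).isAlgebraic
  have hKA : ∀ z ∈ K, z ∈ A := fun z hz => (hAm z).2 (hKalg z hz)
  have hxalg : ∀ i, IsAlgebraic ℚ (x i) := fun i => by
    have hKa : Algebra.IsAlgebraic ℚ K := inferInstance
    exact (isIntegral_trans (R := ℚ) (A := K) (x i) (isAlgebraic_iff_isIntegral.1 (hx i))).isAlgebraic
  obtain ⟨Z₁, hZ₁, hlead⟩ := lead_unit A hA B (fun g hg s => hKA _ (hB g hg s)) P (fun r s => hKA _ (hP r s)) e he hdeg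
  obtain ⟨Z₂, hZ₂, hjac⟩ := jacB A hA B (fun g hg s => hKA _ (hB g hg s)) F (fun i s => hKA _ (hF i s)) het
  -- all coefficients
  let Z₃ : Finset ℂ := (Finset.univ.biUnion fun i => (F i).support.image fun s => coeff s (F i)) ∪
    (Finset.univ.biUnion fun r => (P r).support.image fun s => coeff s (P r)) ∪ Finset.univ.image t
  have hZ₃ : ∀ z ∈ Z₃, z ∈ K := by
    intro z hz
    rcases Finset.mem_union.1 hz with hz | hz
    · rcases Finset.mem_union.1 hz with hz | hz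
      · obtain ⟨i, -, hz⟩ := Finset.mem_biUnion.1 hz
        obtain ⟨s, -, rfl⟩ := Finset.mem_image.1 hz
        exact hF i s
      · obtain ⟨i, -, hz⟩ := Finset.mem_biUnion.1 hz
        obtain ⟨s, -, rfl⟩ := Finset.mem_image.1 hz
        exact hP i s
    · obtain ⟨i, -, rfl⟩ := Finset.mem_image.1 hz
      exact ht i
  let Z : Finset ℂ := Z₁ ∪ Z₂ ∪ Z₃ ∪ Finset.univ.image x
  have hZ : ∀ z ∈ Z, IsAlgebraic ℚ z := by
    intro z hz
    rcases Finset.mem_union.1 hz with hz | hz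
    · rcases Finset.mem_union.1 hz with hz | hz
      · rcases Finset.mem_union.1 hz with hz | hz
        · exact (hAm z).1 (hZ₁ z hz)
        · exact (hAm z).1 (hZ₂ z hz)
      · exact hKalg z (hZ₃ z hz)
    · obtain ⟨i, -, rfl⟩ := Finset.mem_image.1 hz
      exact hxalg i
  obtain ⟨p, hp, τ, hpN, hUn, hfr⟩ := Pool.Agent.Helper53.OB.frob σ Z hZ (max (Finset.univ.sup e) 3)
  have hp3 : 3 ≤ p := (lt_of_le_of_lt (le_max_right _ 3) hpN).le
  have hpe : ∀ r, e r < p := fun r =>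
    lt_of_le_of_lt ((Finset.le_sup (f := e) (Finset.mem_univ r)).trans (le_max_left _ 3)) hpN
  have hUn₁ : Un τ Z₁ := fun z hz => hUn z (Finset.mem_union_left _ (Finset.mem_union_left _ (Finset.mem_union_left _ hz)))
  have hUn₂ : Un τ Z₂ := fun z hz => hUn z (Finset.mem_union_left _ (Finset.mem_union_left _ (Finset.mem_union_right _ hz)))
  have hUn₃ : Un τ Z₃ := fun z hz => hUn z (Finset.mem_union_left _ (Finset.mem_union_right _ hz))
  have hZ₃Z : ∀ z ∈ Z₃, z ∈ Z := fun z hz => Finset.mem_union_left _ (Finset.mem_union_right _ hz)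
  have hxZ : ∀ i, x i ∈ Z := fun i => Finset.mem_union_right _ (Finset.mem_image.2 ⟨i, Finset.mem_univ _, rfl⟩)
  have htZ : ∀ i, t i ∈ Z₃ := fun i => Finset.mem_union_right _ (Finset.mem_image.2 ⟨i, Finset.mem_univ _, rfl⟩)
  have hFZ : ∀ i s, coeff s (F i) ≠ 0 → coeff s (F i) ∈ Z₃ := fun i s h => Finset.mem_union_left _
    (Finset.mem_union_left _ (Finset.mem_biUnion.2 ⟨i, Finset.mem_univ _, Finset.mem_image.2 ⟨s, mem_support_iff.2 h, rfl⟩⟩))
  have hPZ : ∀ i s, coeff s (P i) ≠ 0 → coeff s (P i) ∈ Z₃ := fun i s h => Finset.mem_union_left _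
    (Finset.mem_union_right _ (Finset.mem_biUnion.2 ⟨i, Finset.mem_univ _, Finset.mem_image.2 ⟨s, mem_support_iff.2 h, rfl⟩⟩))
  -- the Frobenius
  have hcp : CharP (kk p) p := charP_kk p
  set φ : kk p →+* kk p := frobenius (kk p) p with hφ
  have hrd : ∀ z ∈ Z, ∀ k : ℕ, φ^[k] (rd τ z) = rd τ z ↔ σ^[k] z = z := by
    intro z hz k
    rw [← hfr z hz k, hφ, iterate_frobenius]
    exact (rd_pow_iff τ z (hUn z hz).1 k)
  have hφK : ∀ z ∈ Z₃, φ (rd τ z) = rd τ z := by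
    intro z hz
    exact (hrd z (hZ₃Z z hz) 1).2 (hσ z (hZ₃ z hz))
  -- the map
  set G := GG F P with hG
  have hGc : ∀ v s, coeff s (G v) = 0 ∨ coeff s (G v) ∈ Z₃ := by
    rintro (i | r) s
    · by_cases h : coeff s (rename Sum.inl (F i)) = 0
      · exact Or.inl h
      · right
        obtain ⟨u, hu, hu'⟩ := coeff_rename_ne_zero _ _ _ h
        have h2 : coeff s (rename Sum.inl (F i)) = coeff u (F i) := by
          rw [← hu, coeff_rename_mapDomain _ Sum.inl_injective]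
        change coeff s (rename Sum.inl (F i)) ∈ Z₃
        rw [h2]
        exact hFZ i u hu'
    · by_cases h : coeff s (P r) = 0
      · exact Or.inl h
      · exact Or.inr (hPZ r s h)
  have hGint : ∀ v s, ‖τ (coeff s (G v))‖ ≤ 1 := by
    intro v s
    rcases hGc v s with h | h
    · rw [h, map_zero, norm_zero]
      exact zero_le_one
    · exact (hUn₃ _ h).1
  have hGfix : ∀ v s, φ (coeff s (rp τ (G v))) = coeff s (rp τ (G v)) := by
    intro v s
    rw [coeff_rp]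
    rcases hGc v s with h | h
    · rw [h, rd_zero, map_zero]
    · exact hφK _ h
  set y₀ : Fin m ⊕ Fin n → ℂ := Sum.elim t x with hy₀
  have hy₀int : ∀ v, ‖τ (y₀ v)‖ ≤ 1 := by
    rintro (i | r)
    · exact (hUn₃ _ (htZ i)).1
    · exact (hUn _ (hxZ r)).1
  have hyint := orb_int τ G hGint y₀ hy₀int
  have hyB : ∀ k, ∀ g ∈ B, eval (fun i => (evI G)^[k] y₀ (Sum.inl i)) g = 0 := by
    intro k
    rw [orb_base F P y₀ k]
    have h0 : (fun i => y₀ (Sum.inl i)) = t := rfl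
    rw [h0]
    induction k with
    | zero => exact htB
    | succ k ih =>
      rw [Function.iterate_succ_apply']
      exact hFB _ ih
  -- residues of the orbit
  have hres : ∀ k, (fun v => rd τ ((evI G)^[k] y₀ v)) = (evI fun v => rp τ (G v))^[k] fun v => rd τ (y₀ v) := by
    intro k
    induction k with
    | zero => rfl
    | succ k ih =>
      rw [Function.iterate_succ_apply', Function.iterate_succ_apply', ← ih]
      funext v
      exact (rd_eval τ (G v) (hGint v) _ (hyint k)).2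
  refine eng_one G p hp3 τ hGint y₀ hy₀int (fun k => ?_) V
  rw [hG, det_tri F P htri, map_mul, norm_mul, ← hG, hjac p τ hUn₂ _ (hyB k) (fun i => hyint k (Sum.inl i)), one_mul,
    map_prod, norm_prod]
  refine Finset.prod_eq_one fun r _ => ?_
  obtain ⟨hd1, hd2⟩ := rd_pderiv τ (P r) (hGint (Sum.inr r)) (Sum.inr r)
  obtain ⟨hd3, hd4⟩ := rd_eval τ (pderiv (Sum.inr r) (P r)) hd1 _ (hyint k)
  refine norm_of_rd_ne_zero τ hd3 ?_
  rw [hd4, hd2, hres k]
  refine pderiv_orbit' φ (fun v => rp τ (G v)) hGfix e ?_ ?_ he ?_ (fun v => rd τ (y₀ v)) ?_ ?_ k r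
  · intro i s hs j
    by_contra hne
    rw [mem_support_iff, coeff_rp] at hs
    have h1 : coeff s (rename Sum.inl (F i)) ≠ 0 := by
      intro h
      apply hs
      change rd τ (coeff s (rename Sum.inl (F i))) = 0
      rw [h, rd_zero]
    obtain ⟨u, hu, -⟩ := coeff_rename_ne_zero _ _ _ h1
    apply hne
    rw [← hu]
    exact Finsupp.mapDomain_of_notMem_range _ _ (by rintro ⟨i', hi'⟩; exact absurd hi' (by simp))
  · intro r' s hs j hj
    rw [mem_support_iff, coeff_rp] at hs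
    refine htri r' s ?_ j hj
    rw [mem_support_iff]
    intro h
    apply hs
    change rd τ (coeff s (P r')) = 0
    rw [h, rd_zero]
  · intro r' h
    have h1 := (CharP.cast_eq_zero_iff (kk p) p (e r')).1 h
    have h2 := Nat.le_of_dvd (he r') h1
    have := hpe r'
    omega
  · intro k' r'
    rw [← hres k']
    change (fib (Sum.inr r') (fun v => rd τ ((evI G)^[k'] y₀ v)) (rp τ (P r'))).natDegree = e r'
    have hf := rd_fib τ (P r') (hGint (Sum.inr r')) _ (hyint k') (Sum.inr r')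
    have hdg := hdeg _ (hyB k') r'
    refine le_antisymm ?_ ?_
    · rw [Polynomial.natDegree_le_iff_coeff_eq_zero]
      intro j hj
      rw [← (hf j).2, Polynomial.coeff_eq_zero_of_natDegree_lt (by rw [hdg]; exact hj), rd_zero]
    · refine Polynomial.le_natDegree_of_ne_zero ?_
      rw [← (hf (e r')).2]
      intro h
      have h1 := (rd_eq_zero τ (hf (e r')).1).1 h
      have h2 := hlead p τ hUn₁ _ (hyB k') (hyint k') r'
      rw [h2] at h1
      exact lt_irrefl _ h1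
  · intro r'
    rcases Nat.lt_or_ge (e r') 2 with h | h
    · left
      have := he r'
      omega
    · right
      obtain ⟨l, hl, hel, hdv⟩ := hc r' h
      obtain ⟨h1, h2⟩ := ln_dvd σ x (fun j => per_alg σ (x j) (hxalg j)) φ (fun j => rd τ (x j))
        (fun j k => hrd (x j) (hxZ j) k) r' l hdv
      refine ⟨ln σ x r', l, hl, hel, ?_, h2⟩
      rintro (i | j) hb
      · exact Function.iterate_fixed (hφK _ (htZ i)) _
      · exact h1 j hb

end

end Pool.Agent.Helper10.TR
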