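import Pool.Agent.Helper10.TR.Orb
import Pool.Agent.Helper26.OB.Defs

/-!
# TR: orbits of a triangular map over a field with an endomorphism, all degrees
-/

set_option autoImplicit false

namespace Pool.Agent.Helper10.TR

open MvPolynomial
open Pool.Agent.Helper26.OS (evI jacI)
open Pool.Agent.Helper26.OB (Smooth)
open Pool.Agent.Helper10.OB (minimalPeriod_le_card)
open Pool.Agent.Helper10.OS

noncomputable section

variable {κ : Type} [Field κ] {m n : ℕ}

/-- the degree of the image -/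
theorem period_eval' (ψ : κ →+* κ) (q : Polynomial κ) (hq : q.map ψ = q) (h1 : 1 ≤ q.natDegree) (w : κ)
    (h : 0 < Function.minimalPeriod ψ w) : ∃ j, 1 ≤ j ∧ j ≤ q.natDegree ∧
      Function.minimalPeriod ψ w = j * Function.minimalPeriod ψ (q.eval w) := by
  classical
  set L := Function.minimalPeriod ψ w with hL
  set L' := Function.minimalPeriod ψ (q.eval w) with hL'
  have hper : ψ^[L] (q.eval w) = q.eval w := by
    rw [← eval_iter ψ q hq, hL, Function.iterate_minimalPeriod]
  have hL'L : L' ∣ L := Function.IsPeriodicPt.minimalPeriod_dvd hper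
  have hL'0 : 0 < L' := Nat.pos_of_dvd_of_pos hL'L h
  set g : Polynomial κ := q - Polynomial.C (q.eval w) with hg
  have hg0 : g ≠ 0 := by
    intro h2
    have h3 : q = Polynomial.C (q.eval w) := sub_eq_zero.1 h2
    rw [h3, Polynomial.natDegree_C] at h1
    omega
  have hper' : ψ^[L'] (q.eval w) = q.eval w := Function.isPeriodicPt_minimalPeriod ψ (q.eval w)
  have hS : ∀ x ∈ g.roots.toFinset, ψ^[L'] x ∈ g.roots.toFinset := by
    intro x hx
    rw [Multiset.mem_toFinset, Polynomial.mem_roots hg0, Polynomial.IsRoot.def, hg, Polynomial.eval_sub,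
      Polynomial.eval_C, sub_eq_zero] at hx ⊢
    rw [eval_iter ψ q hq, hx, hper']
  have hw : w ∈ g.roots.toFinset := by
    rw [Multiset.mem_toFinset, Polynomial.mem_roots hg0, Polynomial.IsRoot.def, hg, Polynomial.eval_sub,
      Polynomial.eval_C, sub_self]
  obtain ⟨h2, h3⟩ := minimalPeriod_le_card (ψ^[L']) (ψ.injective.iterate L') _ hS w hw
  have h4 : g.roots.toFinset.card ≤ q.natDegree := by
    refine (Multiset.toFinset_card_le _).trans ((Polynomial.card_roots' g).trans ?_)
    rw [hg]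
    exact (Polynomial.natDegree_sub_C).le
  refine ⟨Function.minimalPeriod (ψ^[L']) w, h2, h3.trans h4, ?_⟩
  rw [Function.minimalPeriod_iterate_eq_div_gcd hL'0.ne', ← hL, Nat.gcd_eq_right hL'L, Nat.div_mul_cancel hL'L]

section orbit

variable (σ : κ →+* κ) (G : Fin m ⊕ Fin n → MvPolynomial (Fin m ⊕ Fin n) κ)
  (hG : ∀ v s, σ (coeff s (G v)) = coeff s (G v)) (e : Fin n → ℕ)
  (h1 : ∀ i, ∀ s ∈ (G (Sum.inl i)).support, ∀ j, s (Sum.inr j) = 0)
  (h2 : ∀ r, ∀ s ∈ (G (Sum.inr r)).support, ∀ j, r < j → s (Sum.inr j) = 0)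

include hG h1 h2

/-- the degrees along the orbit -/
theorem smooth_orbit (he : ∀ r, 1 ≤ e r) (y : Fin m ⊕ Fin n → κ)
    (hdeg : ∀ k r, (fib (Sum.inr r) ((evI G)^[k] y) (G (Sum.inr r))).natDegree = e r) (N : ℕ) (r : Fin n)
    (hy : ∀ v, below r v → σ^[N] (y v) = y v)
    (hd : 0 < Function.minimalPeriod (σ^[N]) (y (Sum.inr r))) (k : ℕ) :
    0 < Function.minimalPeriod (σ^[N]) ((evI G)^[k] y (Sum.inr r)) ∧ ∃ E, Smooth (e r) E ∧
      Function.minimalPeriod (σ^[N]) (y (Sum.inr r)) =
        E * Function.minimalPeriod (σ^[N]) ((evI G)^[k] y (Sum.inr r)) := by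
  induction k with
  | zero =>
    refine ⟨hd, 1, fun r' hr' h => ?_, (one_mul _).symm⟩
    exact absurd (Nat.dvd_one.1 h) hr'.one_lt.ne'
  | succ k ih =>
    obtain ⟨ih1, E, hE, ih2⟩ := ih
    have hdk := hdeg k r
    rw [Function.iterate_succ_apply']
    set y' := (evI G)^[k] y with hy'
    obtain ⟨hq1, hq4, -⟩ := fib_props σ G hG h2 N r y' (fix_below' σ G hG h1 h2 N r y hy k)
    have hq1' := hq1
    obtain ⟨j, hj1, hj2, hj3⟩ := period_eval' (σ ^ N) _ hq1 (by rw [hdk]; exact he r) (y' (Sum.inr r))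
      (by rw [RingHom.coe_pow]; exact ih1)
    rw [hq4, RingHom.coe_pow] at hj3
    rw [hdk] at hj2
    refine ⟨?_, E * j, ?_, ?_⟩
    · change 0 < Function.minimalPeriod (σ^[N]) (eval y' (G (Sum.inr r)))
      rcases Nat.eq_zero_or_pos (Function.minimalPeriod (σ^[N]) (eval y' (G (Sum.inr r)))) with h | h
      · rw [h, mul_zero] at hj3
        omega
      · exact h
    · intro r' hr' h
      rcases (Nat.Prime.dvd_mul hr').1 h with h | h
      · exact hE r' hr' h
      · exact (Nat.le_of_dvd hj1 h).trans hj2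
    · rw [ih2, hj3, mul_assoc]
      rfl

/-- no critical points along the orbit -/
theorem pderiv_orbit2 (he : ∀ r, 1 ≤ e r) (hek : ∀ r, (e r : κ) ≠ 0) (y : Fin m ⊕ Fin n → κ)
    (hdeg : ∀ k r, (fib (Sum.inr r) ((evI G)^[k] y) (G (Sum.inr r))).natDegree = e r)
    (hc : ∀ r, e r = 1 ∨ ∃ N : ℕ, (∀ v, below r v → σ^[N] (y v) = y v) ∧
      ((∃ l : ℕ, l.Prime ∧ e r < l ∧ l ∣ Function.minimalPeriod (σ^[N]) (y (Sum.inr r))) ∨
      (0 < Function.minimalPeriod (σ^[N]) (y (Sum.inr r)) ∧
        ∀ k w, (Polynomial.derivative (fib (Sum.inr r) ((evI G)^[k] y) (G (Sum.inr r)))).eval w = 0 →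
          ∀ E, Smooth (e r) E → Function.minimalPeriod (σ^[N]) (y (Sum.inr r)) ≠
            E * Function.minimalPeriod (σ^[N]) w))) (k : ℕ) (r : Fin n) :
    eval ((evI G)^[k] y) (pderiv (Sum.inr r) (G (Sum.inr r))) ≠ 0 := by
  rcases hc r with h | ⟨N, hy, ⟨l, hl, hel, hd⟩ | ⟨hpos, hcr⟩⟩
  · have hdk := hdeg k r
    set q := fib (Sum.inr r) ((evI G)^[k] y) (G (Sum.inr r)) with hq
    have hq3 : q.coeff (e r) ≠ 0 := by
      rw [← hdk, ← Polynomial.leadingCoeff]
      intro h
      have h' : q = 0 := Polynomial.leadingCoeff_eq_zero.1 h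
      rw [h', Polynomial.natDegree_zero] at hdk
      have := he r
      omega
    obtain ⟨-, -, hq5⟩ := fib_props σ G hG h2 0 r ((evI G)^[k] y) fun v _ => rfl
    rw [← hq5]
    have h4 : q = Polynomial.C (q.coeff 1) * Polynomial.X + Polynomial.C (q.coeff 0) :=
      Polynomial.eq_X_add_C_of_natDegree_le_one (by omega)
    rw [← hq, h4]
    rw [h] at hq3
    simpa using hq3
  · have hdk := hdeg k r
    set q := fib (Sum.inr r) ((evI G)^[k] y) (G (Sum.inr r)) with hq
    have hq3 : q.coeff (e r) ≠ 0 := by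
      rw [← hdk, ← Polynomial.leadingCoeff]
      intro h
      have h' : q = 0 := Polynomial.leadingCoeff_eq_zero.1 h
      rw [h', Polynomial.natDegree_zero] at hdk
      have := he r
      omega
    have hfix := fix_below' σ G hG h1 h2 N r y hy k
    obtain ⟨hq1, -, hq5⟩ := fib_props σ G hG h2 N r ((evI G)^[k] y) hfix
    have hdo := dvd_orbit' σ G hG e h1 h2 he y hdeg N r hy l hl hel hd k
    rw [← hq5, ← hq]
    rw [← hq] at hq1
    intro h0
    have h4 : Polynomial.derivative q ≠ 0 := by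
      intro h5
      have h6 := congrArg (fun f => Polynomial.coeff f (e r - 1)) h5
      simp only [Polynomial.coeff_derivative, Polynomial.coeff_zero] at h6
      have h7 : e r - 1 + 1 = e r := Nat.sub_add_cancel (he r)
      rw [h7] at h6
      have h8 : ((e r - 1 : ℕ) : κ) + 1 = (e r : κ) := by
        rw [← Nat.cast_succ, Nat.succ_eq_add_one, h7]
      rw [h8] at h6
      exact (mul_ne_zero hq3 (hek r)) h6
    have h5 : (Polynomial.derivative q).map (σ ^ N) = Polynomial.derivative q := by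
      rw [← Polynomial.derivative_map, hq1]
    have h6 : (Polynomial.derivative q).natDegree < l := by
      have := Polynomial.natDegree_derivative_le q
      omega
    refine period_root (σ ^ N) _ h5 h4 h6 _ h0 ?_
    rw [RingHom.coe_pow]
    exact hdo
  · have hfix := fix_below' σ G hG h1 h2 N r y hy k
    obtain ⟨-, -, hq5⟩ := fib_props σ G hG h2 N r ((evI G)^[k] y) hfix
    rw [← hq5]
    intro h0
    obtain ⟨-, E, hE, h3⟩ := smooth_orbit σ G hG e h1 h2 he y hdeg N r hy hpos k
    exact hcr k _ h0 E hE h3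

end orbit

end

end Pool.Agent.Helper10.TR
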