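import Mathlib
import Pool.Agent.Helper26.OS.Defs

/-!
# TR: triangular maps. Definitions

`Φ(t, x) = (F(t), P_1(t; x_1), .., P_n(t, x_1, .., x_(n-1); x_n))` on `B × A^n`, `B` a closed subset of `A^m`, `F` étale on
`B`, `P_r` of degree `e r ≥ 1` in `x_r` at every point of `B × A^n`.
-/

set_option autoImplicit false

namespace Pool.Agent.Helper10.TR

open MvPolynomial Pool.Agent.Helper61.TH Pool.Agent.Helper87.FK Pool.Agent.Helper26.OB
open Pool.Agent.Helper26.OS (evI jacI)

noncomputable section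

/-- the polynomial in one variable: `v` the variable, all others have the values `y` -/
def fib {ι R : Type} [DecidableEq ι] [CommRing R] (v : ι) (y : ι → R) (P : MvPolynomial ι R) : Polynomial R :=
  eval₂ Polynomial.C (fun w => if w = v then Polynomial.X else Polynomial.C (y w)) P

/-- the variables of `P r` are `t`, `x_1, .., x_r` -/
def Tri {m n : ℕ} {R : Type} [CommRing R] (P : Fin n → MvPolynomial (Fin m ⊕ Fin n) R) : Prop :=
  ∀ r, ∀ s ∈ (P r).support, ∀ j, r < j → s (Sum.inr j) = 0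

/-- the triangular map -/
def GG {m n : ℕ} {R : Type} [CommRing R] (F : Fin m → MvPolynomial (Fin m) R)
    (P : Fin n → MvPolynomial (Fin m ⊕ Fin n) R) : Fin m ⊕ Fin n → MvPolynomial (Fin m ⊕ Fin n) R :=
  Sum.elim (fun i => rename Sum.inl (F i)) P

/-- the length of the orbit of `(x_1, .., x_r)` under `f` -/
def ln {X : Type} {n : ℕ} (f : X → X) (x : Fin n → X) (r : ℕ) : ℕ :=
  sInf {k | 1 ≤ k ∧ ∀ j : Fin n, (j : ℕ) < r → f^[k] (x j) = x j}

/-- the residue polynomial -/
def rp {ι : Type} {p : ℕ} [Fact p.Prime] (τ : ℂ →+* PadicAlgCl p) (P : MvPolynomial ι ℂ) : MvPolynomial ι (kk p) :=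
  ∑ s ∈ P.support, monomial s (rd τ (coeff s P))

end

end Pool.Agent.Helper10.TR
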