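import Pool.Agent.Helper10.TR.Asm
import Pool.Agent.Helper10.TR.ResE
import Pool.Agent.Helper83.TR.C
import Pool.Agent.Helper98.TR.D
import Pool.Agent.Helper11.TR.LU

/-!
# TR: the theorem
-/

set_option autoImplicit false

namespace Pool.Agent.Helper10.TR

open MvPolynomial Pool.Agent.Helper61.TH Pool.Agent.Helper87.FK Pool.Agent.Helper26.OB
open Pool.Agent.Helper26.OS (evI jacI)

noncomputable section

theorem tri {m n : ℕ} (K : Subfield ℂ) (hK : NumberField K) (B : Set (MvPolynomial (Fin m) ℂ))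
    (hB : ∀ g ∈ B, ∀ s, coeff s g ∈ K)
    (F : Fin m → MvPolynomial (Fin m) ℂ) (hF : ∀ i s, coeff s (F i) ∈ K)
    (hFB : ∀ t, (∀ g ∈ B, eval t g = 0) → ∀ g ∈ B, eval (ev F t) g = 0)
    (het : ∀ t, (∀ g ∈ B, eval t g = 0) → (jac F t).det ≠ 0)
    (P : Fin n → MvPolynomial (Fin m ⊕ Fin n) ℂ) (hP : ∀ r s, coeff s (P r) ∈ K) (htri : Tri P)
    (e : Fin n → ℕ) (he : ∀ r, 1 ≤ e r)
    (hdeg : ∀ y : Fin m ⊕ Fin n → ℂ, (∀ g ∈ B, eval (fun i => y (Sum.inl i)) g = 0) → ∀ r,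
        (fib (Sum.inr r) y (P r)).natDegree = e r)
    (t : Fin m → ℂ) (ht : ∀ i, t i ∈ K) (htB : ∀ g ∈ B, eval t g = 0)
    (x : Fin n → ℂ) (hx : ∀ i, IsAlgebraic K (x i))
    (σ : ℂ ≃+* ℂ) (hσ : ∀ z ∈ K, σ z = z)
    (hc : ∀ r : Fin n, 2 ≤ e r → ∃ l : ℕ, l.Prime ∧ e r < l ∧ l ∣ ln σ x (r + 1) / ln σ x r)
    (V : Set (MvPolynomial (Fin m ⊕ Fin n) ℂ)) :
    ∃ S : Finset (ℕ × ℕ), {k | ∀ g ∈ V, eval ((evI (GG F P))^[k] (Sum.elim t x)) g = 0} =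
      {k | ∃ q ∈ S, ∃ j, k = q.1 + q.2 * j} :=
  tri_of (fun A hA => Pool.Agent.Helper11.TR.lead_unit A hA) (fun F P hP y => Pool.Agent.Helper83.TRC.det_tri F P hP y)
    (fun f x hx g y hy r l hl => ln_dvd f x hx g y hy r l hl) (fun τ P s => coeff_rp τ P s)
    (fun τ P hP y hy => rd_eval τ P hP y hy) (fun τ P hP v => rd_pderiv τ P hP v)
    (fun τ P hP y hy v j => rd_fib τ P hP y hy v j) K hK B hB F hF hFB het P hP htri e he hdeg t ht htB x hx σ hσ hc V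

theorem fin_of
    (cyc_cond : ∀ (K : Subfield ℂ) {n : ℕ} (e : Fin n → ℕ) (x : Fin n → ℂ) (l : Fin n → ℕ), Function.Injective l →
      (∀ r, (e r = 1 ∧ x r ∈ K) ∨ ((l r).Prime ∧ e r < l r ∧ x r ∉ K ∧
        ∃ L : IntermediateField K ℂ, IsGalois K L ∧ Module.finrank K L = l r ∧ x r ∈ L)) →
      ∃ σ : ℂ ≃+* ℂ, (∀ z ∈ K, σ z = z) ∧ ∀ r : Fin n, 2 ≤ e r →
        ∃ l' : ℕ, l'.Prime ∧ e r < l' ∧ l' ∣ ln σ x (r + 1) / ln σ x r)
    {m n : ℕ} (K : Subfield ℂ) (hK : NumberField K) (B : Set (MvPolynomial (Fin m) ℂ))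
    (hB : ∀ g ∈ B, ∀ s, coeff s g ∈ K)
    (F : Fin m → MvPolynomial (Fin m) ℂ) (hF : ∀ i s, coeff s (F i) ∈ K)
    (hFB : ∀ t, (∀ g ∈ B, eval t g = 0) → (∀ g ∈ B, eval (fun i => eval t (F i)) g = 0) ∧
      (Matrix.of fun i j => eval t (pderiv j (F i))).det ≠ 0)
    (P : Fin n → MvPolynomial (Fin m ⊕ Fin n) ℂ) (hP : ∀ r s, coeff s (P r) ∈ K)
    (htri : ∀ r, ∀ s ∈ (P r).support, ∀ j, r < j → s (Sum.inr j) = 0)
    (e : Fin n → ℕ) (he : ∀ r, 1 ≤ e r)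
    (hdeg : ∀ y : Fin m ⊕ Fin n → ℂ, (∀ g ∈ B, eval (fun i => y (Sum.inl i)) g = 0) → ∀ r,
        (fib (Sum.inr r) y (P r)).natDegree = e r)
    (t : Fin m → ℂ) (ht : ∀ i, t i ∈ K) (htB : ∀ g ∈ B, eval t g = 0) (x : Fin n → ℂ)
    (hx : ((∀ r, IsAlgebraic K (x r)) ∧ ∃ σ : ℂ ≃+* ℂ, (∀ z ∈ K, σ z = z) ∧ ∀ r : Fin n, 2 ≤ e r →
        ∃ l : ℕ, l.Prime ∧ e r < l ∧ l ∣ ln σ x (r + 1) / ln σ x r) ∨
      ∃ l : Fin n → ℕ, Function.Injective l ∧ ∀ r, (e r = 1 ∧ x r ∈ K) ∨ ((l r).Prime ∧ e r < l r ∧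
        x r ∉ K ∧ ∃ L : IntermediateField K ℂ, IsGalois K L ∧ Module.finrank K L = l r ∧ x r ∈ L))
    (V : Set (MvPolynomial (Fin m ⊕ Fin n) ℂ)) :
    ∃ S : Finset (ℕ × ℕ), {k : ℕ | ∀ g ∈ V, eval ((fun y : Fin m ⊕ Fin n → ℂ =>
        Sum.elim (fun i => eval (fun j => y (Sum.inl j)) (F i)) fun r => eval y (P r))^[k] (Sum.elim t x)) g = 0} =
      {k | ∃ q ∈ S, ∃ j, k = q.1 + q.2 * j} := by
  have hΦ : (fun y : Fin m ⊕ Fin n → ℂ =>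
        Sum.elim (fun i => eval (fun j => y (Sum.inl j)) (F i)) fun r => eval y (P r)) = evI (GG F P) := by
    funext y v
    rcases v with i | r
    · change eval (fun j => y (Sum.inl j)) (F i) = eval y (rename Sum.inl (F i))
      rw [eval_rename]
      rfl
    · rfl
  rw [hΦ]
  rcases hx with ⟨hx, σ, hσ, hc⟩ | ⟨l, hl, h⟩
  · exact tri K hK B hB F hF (fun t ht => (hFB t ht).1) (fun t ht => (hFB t ht).2) P hP htri e he hdeg t ht htB x hx σ hσ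
      hc V
  · obtain ⟨σ, hσ, hc⟩ := cyc_cond K e x l hl h
    refine tri K hK B hB F hF (fun t ht => (hFB t ht).1) (fun t ht => (hFB t ht).2) P hP htri e he hdeg t ht htB x ?_ σ hσ
      hc V
    intro r
    rcases h r with ⟨-, h1⟩ | ⟨hlr, -, -, L, hL, hfr, hxL⟩
    · exact isAlgebraic_algebraMap (⟨x r, h1⟩ : K)
    · have hfd : FiniteDimensional K L := Module.finite_of_finrank_pos (by rw [hfr]; exact hlr.pos)
      have h1 : IsAlgebraic K (⟨x r, hxL⟩ : L) := Algebra.IsAlgebraic.isAlgebraic _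
      exact (isAlgebraic_algebraMap_iff (S := L) (A := ℂ) Subtype.val_injective).2 h1

end

end Pool.Agent.Helper10.TR
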