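import Pool.Agent.Helper10.TR.Asm2
import Pool.Agent.Helper98.TR.CY
import Pool.Agent.Helper98.TR.H
import Pool.Agent.Helper11.TR.CG

/-!
# TR: the theorem in the form of the result file
-/

set_option autoImplicit false

namespace Pool.Agent.Helper10.TR

open MvPolynomial Pool.Agent.Helper61.TH Pool.Agent.Helper87.FK Pool.Agent.Helper26.OB
open Pool.Agent.Helper26.OS (evI jacI)

noncomputable section

theorem ln_rat {n : ℕ} (σ : ℂ → ℂ) (x : Fin n → ℂ) (h : ∀ r, σ (x r) = x r) (r : ℕ) : ln σ x r = 1 := by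
  refine le_antisymm (Nat.sInf_le ⟨le_rfl, fun j _ => h j⟩) ?_
  have h1 : {k | 1 ≤ k ∧ ∀ j : Fin n, (j : ℕ) < r → σ^[k] (x j) = x j}.Nonempty := ⟨1, le_rfl, fun j _ => h j⟩
  exact (Nat.sInf_mem h1).1

theorem fin2 {m n : ℕ} (K : Subfield ℂ) (hK : NumberField K) (B : Set (MvPolynomial (Fin m) ℂ))
    (hB : ∀ g ∈ B, ∀ s, coeff s g ∈ K)
    (F : Fin m → MvPolynomial (Fin m) ℂ) (hF : ∀ i s, coeff s (F i) ∈ K)
    (hFB : ∀ t, (∀ g ∈ B, eval t g = 0) → (∀ g ∈ B, eval (fun i => eval t (F i)) g = 0) ∧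
      (Matrix.of fun i j => eval t (pderiv j (F i))).det ≠ 0)
    (P : Fin n → MvPolynomial (Fin m ⊕ Fin n) ℂ) (hP : ∀ r s, coeff s (P r) ∈ K)
    (htri : ∀ r, ∀ s ∈ (P r).support, ∀ j, r < j → s (Sum.inr j) = 0)
    (e : Fin n → ℕ) (he : ∀ r, 1 ≤ e r)
    (hdeg : ∀ y : Fin m ⊕ Fin n → ℂ, (∀ g ∈ B, eval (fun i => y (Sum.inl i)) g = 0) → ∀ r,
        (fib (Sum.inr r) y (P r)).natDegree = e r)
    (t : Fin m → ℂ) (ht : ∀ i, t i ∈ K) (htB : ∀ g ∈ B, eval t g = 0) (x : Fin n → ℂ)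
    (hx : ((∀ r, IsAlgebraic K (x r)) ∧ ∃ σ : ℂ ≃+* ℂ, (∀ z ∈ K, σ z = z) ∧ ∀ r : Fin n, 2 ≤ e r →
        (∃ l : ℕ, l.Prime ∧ e r < l ∧ l ∣ ln σ x (r + 1) / ln σ x r) ∨
        ({c | ∃ k, (Polynomial.derivative (fib (Sum.inr r) ((fun y : Fin m ⊕ Fin n → ℂ =>
          Sum.elim (fun i => eval (fun j => y (Sum.inl j)) (F i)) fun r => eval y (P r))^[k] (Sum.elim t x))
            (P r))).eval c = 0}.Finite ∧
          ∀ c ∈ {c | ∃ k, (Polynomial.derivative (fib (Sum.inr r) ((fun y : Fin m ⊕ Fin n → ℂ =>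
          Sum.elim (fun i => eval (fun j => y (Sum.inl j)) (F i)) fun r => eval y (P r))^[k] (Sum.elim t x))
            (P r))).eval c = 0}, ∀ E, (∀ q : ℕ, q.Prime → q ∣ E → q ≤ e r) →
            ln σ x (r + 1) / ln σ x r ≠ E * sInf {k | 1 ≤ k ∧ σ^[ln σ x r * k] c = c})) ∨
      (∃ l : Fin n → ℕ, Function.Injective l ∧ ∀ r, (e r = 1 ∧ x r ∈ K) ∨ ((l r).Prime ∧ e r < l r ∧
        x r ∉ K ∧ ∃ L : IntermediateField K ℂ, IsGalois K L ∧ Module.finrank K L = l r ∧ x r ∈ L)) ∨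
      ((∀ r, x r ∈ K) ∧ ∃ σ : ℂ ≃+* ℂ, (∀ z ∈ K, σ z = z) ∧ ∀ r : Fin n, 2 ≤ e r →
        ({c | ∃ k, (Polynomial.derivative (fib (Sum.inr r) ((fun y : Fin m ⊕ Fin n → ℂ =>
          Sum.elim (fun i => eval (fun j => y (Sum.inl j)) (F i)) fun r => eval y (P r))^[k] (Sum.elim t x))
            (P r))).eval c = 0}.Finite ∧
          ∀ c ∈ {c | ∃ k, (Polynomial.derivative (fib (Sum.inr r) ((fun y : Fin m ⊕ Fin n → ℂ =>
          Sum.elim (fun i => eval (fun j => y (Sum.inl j)) (F i)) fun r => eval y (P r))^[k] (Sum.elim t x))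
            (P r))).eval c = 0}, σ c ≠ c)))
    (V : Set (MvPolynomial (Fin m ⊕ Fin n) ℂ)) :
    ∃ S : Finset (ℕ × ℕ), {k : ℕ | ∀ g ∈ V, eval ((fun y : Fin m ⊕ Fin n → ℂ =>
        Sum.elim (fun i => eval (fun j => y (Sum.inl j)) (F i)) fun r => eval y (P r))^[k] (Sum.elim t x)) g = 0} =
      {k | ∃ q ∈ S, ∃ j, k = q.1 + q.2 * j} := by
  have hΦ : (fun y : Fin m ⊕ Fin n → ℂ =>
        Sum.elim (fun i => eval (fun j => y (Sum.inl j)) (F i)) fun r => eval y (P r)) = evI (GG F P) := by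
    funext y v
    rcases v with i | r
    · change eval (fun j => y (Sum.inl j)) (F i) = eval y (rename Sum.inl (F i))
      rw [eval_rename]
      rfl
    · rfl
  rw [hΦ] at hx ⊢
  have key := tri2_of (fun τ P hP y hy v e he hep hdeg hlead hint w hw =>
      Pool.Agent.Helper11.TR.crit_rd τ P hP y hy v e he hep hdeg hlead hint w hw)
    (fun f x hx g y hy r => ln_eq f x hx g y hy r) (fun f g N x y hx hy => len_eq f g N x y hx hy)
    K hK B hB F hF (fun t ht => (hFB t ht).1) (fun t ht => (hFB t ht).2) P hP htri e he hdeg t ht htB x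
  rcases hx with ⟨hx, σ, hσ, hc⟩ | ⟨l, hl, h⟩ | ⟨hx, σ, hσ, hc⟩
  · exact key hx σ hσ hc V
  · obtain ⟨σ, hσ, hc⟩ := cyc_cond K e x l hl h
    refine key ?_ σ hσ (fun r hr => Or.inl (hc r hr)) V
    intro r
    rcases h r with ⟨-, h1⟩ | ⟨hlr, -, -, L, hL, hfr, hxL⟩
    · exact isAlgebraic_algebraMap (⟨x r, h1⟩ : K)
    · have hfd : FiniteDimensional K L := Module.finite_of_finrank_pos (by rw [hfr]; exact hlr.pos)
      have h1 : IsAlgebraic K (⟨x r, hxL⟩ : L) := Algebra.IsAlgebraic.isAlgebraic _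
      exact (isAlgebraic_algebraMap_iff (S := L) (A := ℂ) Subtype.val_injective).2 h1
  · refine key (fun r => isAlgebraic_algebraMap (⟨x r, hx r⟩ : K)) σ hσ (fun r hr => Or.inr ⟨(hc r hr).1, ?_⟩) V
    intro c hc0 E _ hE
    have h1 : ∀ r, ln σ x r = 1 := fun r => ln_rat σ x (fun r => hσ _ (hx r)) r
    rw [h1, h1, Nat.div_one] at hE
    have h2 : sInf {k | 1 ≤ k ∧ (σ : ℂ → ℂ)^[1 * k] c = c} = 1 := Nat.eq_one_of_mul_eq_one_left hE.symm
    have h3 : {k | 1 ≤ k ∧ (σ : ℂ → ℂ)^[1 * k] c = c}.Nonempty := by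
      by_contra h4
      rw [Set.not_nonempty_iff_eq_empty] at h4
      rw [h4, Nat.sInf_empty] at h2
      exact zero_ne_one h2
    have h4 := Nat.sInf_mem h3
    rw [h2] at h4
    exact (hc r hr).2 c hc0 h4.2

end

end Pool.Agent.Helper10.TR
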