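import Pool.Agent.Helper10.TR.Asm3
import Pool.Agent.Helper98.TR.CY

/-!
# TR: the theorem over a ramified base, in the form of the result file
-/

set_option autoImplicit false

namespace Pool.Agent.Helper10.TR

open MvPolynomial Pool.Agent.Helper61.TH Pool.Agent.Helper87.FK Pool.Agent.Helper26.OB
open Pool.Agent.Helper26.OS (evI jacI)

noncomputable section

theorem fin3_of
    (tri3 : ∀ {m n : ℕ} (K : Subfield ℂ) (_ : NumberField K) (B D : Set (MvPolynomial (Fin m) ℂ))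
      (_ : ∀ g ∈ B, ∀ s, coeff s g ∈ K) (_ : ∀ g ∈ D, ∀ s, coeff s g ∈ K)
      (F : Fin m → MvPolynomial (Fin m) ℂ) (_ : ∀ i s, coeff s (F i) ∈ K)
      (_ : ∀ t, InX B D t → InX B D (ev F t))
      (P : Fin n → MvPolynomial (Fin m ⊕ Fin n) ℂ) (_ : ∀ r s, coeff s (P r) ∈ K) (_ : Tri P)
      (e : Fin n → ℕ) (_ : ∀ r, 1 ≤ e r)
      (_ : ∀ y : Fin m ⊕ Fin n → ℂ, InX B D (fun i => y (Sum.inl i)) → ∀ r,
        (fib (Sum.inr r) y (P r)).natDegree = e r)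
      (t : Fin m → ℂ) (_ : ∀ i, t i ∈ K) (_ : InX B D t)
      (x : Fin n → ℂ) (_ : ∀ i, IsAlgebraic K (x i))
      (σ : ℂ ≃+* ℂ) (_ : ∀ z ∈ K, σ z = z) (_ : SFree (σ : ℂ →+* ℂ) F B D)
      (_ : ∀ r : Fin n, 2 ≤ e r → (∃ l : ℕ, l.Prime ∧ e r < l ∧ l ∣ ln σ x (r + 1) / ln σ x r) ∨
        ((crs F P (Sum.elim t x) r).Finite ∧ ∀ c ∈ crs F P (Sum.elim t x) r, ∀ E, Smooth (e r) E →
          ln σ x (r + 1) / ln σ x r ≠ E * sInf {k | 1 ≤ k ∧ σ^[ln σ x r * k] c = c}))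
      (V : Set (MvPolynomial (Fin m ⊕ Fin n) ℂ)),
      ∃ S : Finset (ℕ × ℕ), {k | ∀ g ∈ V, eval ((evI (GG F P))^[k] (Sum.elim t x)) g = 0} =
        {k | ∃ q ∈ S, ∃ j, k = q.1 + q.2 * j})
    {m n : ℕ} (K : Subfield ℂ) (hK : NumberField K) (B D : Set (MvPolynomial (Fin m) ℂ))
    (hB : ∀ g ∈ B, ∀ s, coeff s g ∈ K) (hD : ∀ g ∈ D, ∀ s, coeff s g ∈ K)
    (F : Fin m → MvPolynomial (Fin m) ℂ) (hF : ∀ i s, coeff s (F i) ∈ K)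
    (hFX : ∀ t, ((∀ g ∈ B, eval t g = 0) ∧ ∃ g ∈ D, eval t g ≠ 0) →
      ((∀ g ∈ B, eval (fun i => eval t (F i)) g = 0) ∧ ∃ g ∈ D, eval (fun i => eval t (F i)) g ≠ 0))
    (P : Fin n → MvPolynomial (Fin m ⊕ Fin n) ℂ) (hP : ∀ r s, coeff s (P r) ∈ K)
    (htri : ∀ r, ∀ s ∈ (P r).support, ∀ j, r < j → s (Sum.inr j) = 0)
    (e : Fin n → ℕ) (he : ∀ r, 1 ≤ e r)
    (hdeg : ∀ y : Fin m ⊕ Fin n → ℂ, ((∀ g ∈ B, eval (fun i => y (Sum.inl i)) g = 0) ∧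
      ∃ g ∈ D, eval (fun i => y (Sum.inl i)) g ≠ 0) → ∀ r, (fib (Sum.inr r) y (P r)).natDegree = e r)
    (t : Fin m → ℂ) (ht : ∀ i, t i ∈ K) (htX : (∀ g ∈ B, eval t g = 0) ∧ ∃ g ∈ D, eval t g ≠ 0) (x : Fin n → ℂ)
    (hx : ((∀ r, IsAlgebraic K (x r)) ∧ ∃ σ : ℂ ≃+* ℂ, (∀ z ∈ K, σ z = z) ∧
        (∃ (k : ℕ) (C : Fin k → Set (MvPolynomial (Fin m) ℂ)), (∀ i, ∀ h ∈ C i, ∀ u, IsAlgebraic ℚ (coeff u h)) ∧
          (∀ t, ((∀ g ∈ B, eval t g = 0) ∧ ∃ g ∈ D, eval t g ≠ 0) →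
            (Matrix.of fun i j => eval t (pderiv j (F i))).det = 0 → ∃ i, ∀ h ∈ C i, eval t h = 0) ∧
          ∀ i t, ((∀ g ∈ B, eval t g = 0) ∧ ∃ g ∈ D, eval t g ≠ 0) →
            ∃ j : ℕ, ∃ h ∈ C i, eval t (map ((σ : ℂ →+* ℂ) ^ j) h) ≠ 0) ∧
        ∀ r : Fin n, 2 ≤ e r → ∃ l : ℕ, l.Prime ∧ e r < l ∧ l ∣ ln σ x (r + 1) / ln σ x r) ∨
      ((∀ t, ((∀ g ∈ B, eval t g = 0) ∧ ∃ g ∈ D, eval t g ≠ 0) →
          (Matrix.of fun i j => eval t (pderiv j (F i))).det ≠ 0) ∧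
        ∃ l : Fin n → ℕ, Function.Injective l ∧ ∀ r, (e r = 1 ∧ x r ∈ K) ∨ ((l r).Prime ∧ e r < l r ∧
        x r ∉ K ∧ ∃ L : IntermediateField K ℂ, IsGalois K L ∧ Module.finrank K L = l r ∧ x r ∈ L)))
    (V : Set (MvPolynomial (Fin m ⊕ Fin n) ℂ)) :
    ∃ S : Finset (ℕ × ℕ), {k : ℕ | ∀ g ∈ V, eval ((fun y : Fin m ⊕ Fin n → ℂ =>
        Sum.elim (fun i => eval (fun j => y (Sum.inl j)) (F i)) fun r => eval y (P r))^[k] (Sum.elim t x)) g = 0} =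
      {k | ∃ q ∈ S, ∃ j, k = q.1 + q.2 * j} := by
  have hΦ : (fun y : Fin m ⊕ Fin n → ℂ =>
        Sum.elim (fun i => eval (fun j => y (Sum.inl j)) (F i)) fun r => eval y (P r)) = evI (GG F P) := by
    funext y v
    rcases v with i | r
    · change eval (fun j => y (Sum.inl j)) (F i) = eval y (rename Sum.inl (F i))
      rw [eval_rename]
      rfl
    · rfl
  rw [hΦ]
  rcases hx with ⟨hx, σ, hσ, hs, hc⟩ | ⟨het, l, hl, h⟩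
  · exact tri3 K hK B D hB hD F hF hFX P hP htri e he hdeg t ht htX x hx σ hσ hs (fun r hr => Or.inl (hc r hr)) V
  · obtain ⟨σ, hσ, hc⟩ := cyc_cond K e x l hl h
    refine tri3 K hK B D hB hD F hF hFX P hP htri e he hdeg t ht htX x ?_ σ hσ ?_ (fun r hr => Or.inl (hc r hr)) V
    · intro r
      rcases h r with ⟨-, h1⟩ | ⟨hlr, -, -, L, hL, hfr, hxL⟩
      · exact isAlgebraic_algebraMap (⟨x r, h1⟩ : K)
      · have hfd : FiniteDimensional K L := Module.finite_of_finrank_pos (by rw [hfr]; exact hlr.pos)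
        have h1 : IsAlgebraic K (⟨x r, hxL⟩ : L) := Algebra.IsAlgebraic.isAlgebraic _
        exact (isAlgebraic_algebraMap_iff (S := L) (A := ℂ) Subtype.val_injective).2 h1
    · exact ⟨0, fun i => i.elim0, fun i => i.elim0, fun t ht h0 => absurd h0 (het t ht), fun i => i.elim0⟩

end

end Pool.Agent.Helper10.TR
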